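import Pool.Agent.R113.PT.Char

/-!
# MP_9d720b_co, Q1: primitive tensors of maximal primitive degree

Row and column indices `1, ..., n` of the problem are `0, ..., n - 1` here.
-/

set_option autoImplicit false

namespace Pool.Agent.Results.MP_9d720b_co.MaximalDegree

open Pool.Agent.R113.PT Set Function

/-- real tensors of order `m` and dimension `n`; the entry with indices `i, i_2, ..., i_m` is
`A i f` with `f = (i_2, ..., i_m)` -/
abbrev Tensor (m n : ℕ) := Fin n → (Fin (m - 1) → Fin n) → ℝ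

/-- the map `T_A`: coordinate `i` of `T_A x` is the `(m - 1)`-st root of the sum of
`a_{i i_2 ... i_m} x_{i_2} ... x_{i_m}` -/
noncomputable def mapT {m n : ℕ} (A : Tensor m n) (x : Fin n → ℝ) : Fin n → ℝ :=
  fun i => (∑ f : Fin (m - 1) → Fin n, A i f * ∏ k, x (f k)) ^ ((1 : ℝ) / ((m - 1 : ℕ) : ℝ))

/-- `T_A^r x` is positive in every coordinate, for every nonzero `x ≥ 0` -/
def Spreads {m n : ℕ} (A : Tensor m n) (r : ℕ) : Prop :=
  ∀ x : Fin n → ℝ, (∀ i, 0 ≤ x i) → x ≠ 0 → ∀ i, 0 < ((mapT A)^[r] x) i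

/-- primitive tensors -/
def IsPrimitive {m n : ℕ} (A : Tensor m n) : Prop := ∃ r : ℕ, 1 ≤ r ∧ Spreads A r

/-- the primitive degree: the least positive `r` such that `T_A^r` makes all nonzero `x ≥ 0`
positive -/
noncomputable def degree {m n : ℕ} (A : Tensor m n) : ℕ := sInf {r | 1 ≤ r ∧ Spreads A r}

/-- the tensor with entries `a_{σ(i_1) ... σ(i_m)}` -/
def relabel {m n : ℕ} (σ : Equiv.Perm (Fin n)) (A : Tensor m n) : Tensor m n :=
  fun i f => A (σ i) (fun k => σ (f k))

/-- the positions of the ones of the Wielandt matrix `W_n` (indices `0, ..., n - 1`) -/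
def wielandt (n : ℕ) (i j : Fin n) : Prop :=
  (i : ℕ) + 1 = j ∨ ((i : ℕ) = n - 1 ∧ ((j : ℕ) = 0 ∨ (j : ℕ) = 1))

/-- the cyclic interval `{a, a + 1, ..., a + l - 1}` modulo `n` -/
def interval (n a l : ℕ) : Set (Fin n) := {i | ∃ t < l, (i : ℕ) = (a + t) % n}

/-- **The explicit condition.**
* `diag`: the zero pattern of the matrix `(a_{i j ... j})` is `W_n`;
* `far`: an entry `a_{i i_2 ... i_m}` with all of `i_2, ..., i_m` in the interval of length `l`
  starting at `a` (where `2 ≤ a ≤ n - 1` and `2 ≤ l ≤ n - 1`) is zero unless `i` lies in the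
  interval of length `l` starting at `a - 1`, or `a = 2`, `l ≤ n - 2` and `i = 0`;
* `near`: for `2 ≤ l ≤ n - 2`, an entry `a_{i i_2 ... i_m}` with all of `i_2, ..., i_m` in
  `{1, ..., l}` is zero unless `i` lies in `{n - 1, 0, 1, ..., l - 1}`; and if some entry
  `a_{0 j_2 ... j_m}` with `j_2, ..., j_m` in `{2, ..., l + 1}` is nonzero (the exception allowed
  by `far`), then the same holds for all entries with `i_2, ..., i_m` in `{0, 1, ..., l}`. -/
structure Extremal {m n : ℕ} (A : Tensor m n) : Prop where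
  diag : ∀ i j : Fin n, A i (fun _ => j) ≠ 0 ↔ wielandt n i j
  far : ∀ a l : ℕ, 2 ≤ a → a ≤ n - 1 → 2 ≤ l → l ≤ n - 1 →
    ∀ (i : Fin n) (f : Fin (m - 1) → Fin n), (∀ k, f k ∈ interval n a l) → A i f ≠ 0 →
      i ∈ interval n (a - 1) l ∨ (a = 2 ∧ l ≤ n - 2 ∧ (i : ℕ) = 0)
  near : ∀ l : ℕ, 2 ≤ l → l ≤ n - 2 → ∀ (i : Fin n) (f : Fin (m - 1) → Fin n),
    (∀ k, f k ∈ interval n 1 l ∨ ((f k : ℕ) = 0 ∧
      ∃ g : Fin (m - 1) → Fin n, (∀ k', g k' ∈ interval n 2 l) ∧ A (f k) g ≠ 0)) →
    A i f ≠ 0 → i ∈ interval n (n - 1) (l + 1)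

/-! ### supports -/

/-- the map on supports -/
def supp {m n : ℕ} (A : Tensor m n) (S : Set (Fin n)) : Set (Fin n) :=
  {i | ∃ f : Fin (m - 1) → Fin n, (∀ k, f k ∈ S) ∧ A i f ≠ 0}

theorem supp_mono {m n : ℕ} (A : Tensor m n) : Monotone (supp A) := by
  rintro S T hST i ⟨f, hf, h⟩
  exact ⟨f, fun k => hST (hf k), h⟩

theorem supp_empty {m n : ℕ} (hm : 2 ≤ m) (A : Tensor m n) : supp A ∅ = ∅ := by
  apply eq_empty_of_forall_notMem
  rintro i ⟨f, hf, -⟩
  exact hf ⟨0, by omega⟩

theorem supp_single {m n : ℕ} (_hm : 2 ≤ m) (A : Tensor m n) (i j : Fin n) :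
    i ∈ supp A {j} ↔ A i (fun _ => j) ≠ 0 := by
  constructor
  · rintro ⟨f, hf, h⟩
    have : f = fun _ => j := funext fun k => hf k
    rwa [this] at h
  · intro h
    exact ⟨fun _ => j, fun _ => rfl, h⟩

theorem mapT_nonneg {m n : ℕ} (A : Tensor m n) (hA : ∀ i f, 0 ≤ A i f) (x : Fin n → ℝ)
    (hx : ∀ i, 0 ≤ x i) (i : Fin n) : 0 ≤ mapT A x i := by
  apply Real.rpow_nonneg
  exact Finset.sum_nonneg fun f _ => mul_nonneg (hA i f) (Finset.prod_nonneg fun k _ => hx _)

theorem mapT_pos {m n : ℕ} (hm : 2 ≤ m) (A : Tensor m n) (hA : ∀ i f, 0 ≤ A i f)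
    (x : Fin n → ℝ) (hx : ∀ i, 0 ≤ x i) : {i | 0 < mapT A x i} = supp A {i | 0 < x i} := by
  ext i
  have hs : 0 ≤ ∑ f : Fin (m - 1) → Fin n, A i f * ∏ k, x (f k) :=
    Finset.sum_nonneg fun f _ => mul_nonneg (hA i f) (Finset.prod_nonneg fun k _ => hx _)
  have hp : (0 : ℝ) < 1 / ((m - 1 : ℕ) : ℝ) := by
    apply one_div_pos.2
    exact_mod_cast (show 0 < m - 1 by omega)
  have h1 : 0 < mapT A x i ↔ 0 < ∑ f : Fin (m - 1) → Fin n, A i f * ∏ k, x (f k) := by
    constructor
    · intro h
      rcases hs.lt_or_eq with h2 | h2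
      · exact h2
      · exfalso
        rw [mapT, ← h2, Real.zero_rpow hp.ne'] at h
        exact lt_irrefl _ h
    · intro h
      exact Real.rpow_pos_of_pos h _
  rw [mem_ofPred_eq, h1]
  constructor
  · intro h
    obtain ⟨f, -, hf⟩ := Finset.exists_ne_zero_of_sum_ne_zero h.ne'
    refine ⟨f, fun k => ?_, left_ne_zero_of_mul hf⟩
    have h2 := Finset.prod_ne_zero_iff.1 (right_ne_zero_of_mul hf) k (Finset.mem_univ k)
    exact lt_of_le_of_ne (hx _) (Ne.symm h2)
  · rintro ⟨f, hf, h⟩
    have h2 : 0 < A i f * ∏ k, x (f k) :=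
      mul_pos (lt_of_le_of_ne (hA i f) (Ne.symm h)) (Finset.prod_pos fun k _ => hf k)
    exact lt_of_lt_of_le h2 (Finset.single_le_sum (f := fun f => A i f * ∏ k, x (f k))
      (fun f _ => mul_nonneg (hA i f) (Finset.prod_nonneg fun k _ => hx _)) (Finset.mem_univ f))

theorem iter_nonneg {m n : ℕ} (A : Tensor m n) (hA : ∀ i f, 0 ≤ A i f) (r : ℕ) :
    ∀ x : Fin n → ℝ, (∀ i, 0 ≤ x i) → ∀ i, 0 ≤ ((mapT A)^[r] x) i := by
  induction r with
  | zero => intro x hx; exact hx
  | succ r ih =>
    intro x hx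
    rw [iterate_succ_apply]
    exact ih _ (mapT_nonneg A hA x hx)

theorem iter_pos {m n : ℕ} (hm : 2 ≤ m) (A : Tensor m n) (hA : ∀ i f, 0 ≤ A i f) (r : ℕ) :
    ∀ x : Fin n → ℝ, (∀ i, 0 ≤ x i) →
      {i | 0 < ((mapT A)^[r] x) i} = (supp A)^[r] {i | 0 < x i} := by
  induction r with
  | zero => intro x hx; rfl
  | succ r ih =>
    intro x hx
    rw [iterate_succ_apply, iterate_succ_apply, ih _ (mapT_nonneg A hA x hx), mapT_pos hm A hA x hx]

theorem spreads_iff {m n : ℕ} (hm : 2 ≤ m) (A : Tensor m n) (hA : ∀ i f, 0 ≤ A i f) (r : ℕ) :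
    Spreads A r ↔ ∀ j, (supp A)^[r] {j} = univ := by
  constructor
  · intro h j
    have hx : ∀ i, 0 ≤ (Pi.single j 1 : Fin n → ℝ) i := by
      intro i
      by_cases hij : i = j
      · subst hij; simp
      · simp [hij]
    have h1 := h (Pi.single j 1) hx (by
      intro h0
      have := congrFun h0 j
      simp at this)
    have h2 := iter_pos hm A hA r (Pi.single j 1) hx
    have h3 : {i | 0 < (Pi.single j 1 : Fin n → ℝ) i} = {j} := by
      ext i
      rw [mem_ofPred_eq, mem_singleton_iff]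
      by_cases hij : i = j
      · subst hij; simp
      · simp [hij]
    rw [h3] at h2
    rw [← h2]
    exact eq_univ_of_forall h1
  · intro h x hx hx0 i
    obtain ⟨j, hj⟩ : ∃ j, x j ≠ 0 := by
      by_contra hcon
      push Not at hcon
      exact hx0 (funext hcon)
    have hj' : 0 < x j := lt_of_le_of_ne (hx j) (Ne.symm hj)
    have h1 : (supp A)^[r] {i | 0 < x i} = univ := by
      apply univ_subset_iff.1
      rw [← h j]
      exact (supp_mono A).iterate r (singleton_subset_iff.2 hj')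
    have h2 := iter_pos hm A hA r x hx
    rw [h1] at h2
    have : i ∈ {i | 0 < ((mapT A)^[r] x) i} := h2 ▸ mem_univ i
    exact this

/-! ### relabelling -/

theorem supp_relabel {m n : ℕ} (σ : Equiv.Perm (Fin n)) (A : Tensor m n) (S : Set (Fin n)) :
    supp (relabel σ A) S = σ ⁻¹' (supp A (σ '' S)) := by
  ext i
  constructor
  · rintro ⟨f, hf, h⟩
    exact ⟨fun k => σ (f k), fun k => mem_image_of_mem σ (hf k), h⟩
  · rintro ⟨g, hg, h⟩
    refine ⟨fun k => σ.symm (g k), fun k => ?_, ?_⟩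
    · obtain ⟨y, hy, hy2⟩ := hg k
      show σ.symm (g k) ∈ S
      rw [← hy2, Equiv.symm_apply_apply]
      exact hy
    · simp only [relabel, Equiv.apply_symm_apply]
      exact h

theorem iter_relabel {m n : ℕ} (σ : Equiv.Perm (Fin n)) (A : Tensor m n) (r : ℕ) :
    ∀ S : Set (Fin n), (supp (relabel σ A))^[r] S = σ ⁻¹' ((supp A)^[r] (σ '' S)) := by
  induction r with
  | zero =>
    intro S
    simp only [iterate_zero, id]
    rw [σ.injective.preimage_image]
  | succ r ih =>
    intro S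
    rw [iterate_succ_apply, iterate_succ_apply, ih, supp_relabel,
      Set.image_preimage_eq _ σ.surjective]

theorem extremal_cond {m n : ℕ} (hm : 2 ≤ m) (A : Tensor m n) : Extremal A ↔ Cond (supp A) := by
  constructor
  · intro h
    refine ⟨fun i j => ?_, ?_, ?_⟩
    · rw [supp_single hm, h.diag]; rfl
    · rintro a l ha1 ha2 hl1 hl2 i ⟨f, hf, hne⟩
      exact h.far a l ha1 ha2 hl1 hl2 i f hf hne
    · rintro l hl1 hl2 i ⟨f, hf, hne⟩
      refine h.near l hl1 hl2 i f (fun k => ?_) hne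
      rcases hf k with h1 | ⟨h1, g, hg, h2⟩
      · exact Or.inl h1
      · exact Or.inr ⟨h1, g, hg, h2⟩
  · intro h
    refine ⟨fun i j => ?_, ?_, ?_⟩
    · rw [← supp_single hm, h.w]; rfl
    · intro a l ha1 ha2 hl1 hl2 i f hf hne
      exact h.c2 a l ha1 ha2 hl1 hl2 i ⟨f, hf, hne⟩
    · intro l hl1 hl2 i f hf hne
      refine h.c3 l hl1 hl2 i ⟨f, fun k => ?_, hne⟩
      rcases hf k with h1 | ⟨h1, g, hg, h2⟩
      · exact Or.inl h1
      · exact Or.inr ⟨h1, g, hg, h2⟩

theorem exists_relabel {m n : ℕ} (hm : 2 ≤ m) (hn : 2 ≤ n) (A : Tensor m n)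
    (hall : ∀ j, (supp A)^[(n - 1) ^ 2 + 1] {j} = univ) {j : Fin n}
    (hj : (supp A)^[(n - 1) ^ 2] {j} ≠ univ) :
    ∃ σ : Equiv.Perm (Fin n), Cond (supp (relabel σ A)) := by
  have hD : Dyn (supp A) := ⟨hn, supp_mono A, supp_empty hm A, fun j => ⟨_, hall j⟩⟩
  obtain ⟨v, hv0, hinj, hstep, hlast⟩ := structure_thm hD hj
  set g : Fin n → Fin n := fun i => v (if (i : ℕ) = 0 then 0 else n - i) with hg
  have hginj : Injective g := by
    intro a b hab
    have ha := a.2
    have hb := b.2
    apply Fin.ext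
    by_contra hne
    have key : ∀ p q : ℕ, p < n → q < n → v p = v q → p = q := by
      intro p q hp hq hpq
      rcases lt_trichotomy p q with h | h | h
      · exact absurd hpq (hinj p q h hq)
      · exact h
      · exact absurd hpq.symm (hinj q p h hp)
    have := key _ _ (by split_ifs <;> omega) (by split_ifs <;> omega) hab
    split_ifs at this <;> omega
  let σ : Equiv.Perm (Fin n) := Equiv.ofBijective g (Finite.injective_iff_bijective.1 hginj)
  have hσ : ∀ i, σ i = g i := fun i => rfl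
  refine ⟨σ, ?_⟩
  have hw : Wiel (supp (relabel σ A)) := by
    intro i k
    rw [supp_relabel, image_singleton, mem_preimage]
    have hi := i.2
    have hk := k.2
    by_cases hk0 : (k : ℕ) = 0
    · have h1 : σ k = v 0 := by rw [hσ, hg]; simp [hk0]
      rw [h1, hstep 0 (by omega), mem_singleton_iff]
      have h2 : v (0 + 1) = σ ⟨n - 1, by omega⟩ := by
        rw [hσ, hg]
        simp only
        rw [if_neg (by omega)]
        congr 1
        omega
      rw [h2, σ.injective.eq_iff]
      constructor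
      · intro h
        rw [h]
        right
        exact ⟨rfl, Or.inl hk0⟩
      · intro h
        apply Fin.ext
        simp only
        omega
    · have h1 : σ k = v (n - k) := by rw [hσ, hg]; simp [hk0]
      by_cases hk1 : (k : ℕ) = 1
      · rw [h1, hk1, hlast]
        have h2 : v 0 = σ ⟨0, by omega⟩ := by rw [hσ, hg]; simp
        have h3 : v 1 = σ ⟨n - 1, by omega⟩ := by
          rw [hσ, hg]
          simp only
          rw [if_neg (by omega)]
          congr 1
          omega
        rw [h2, h3, mem_insert_iff, mem_singleton_iff, σ.injective.eq_iff, σ.injective.eq_iff]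
        constructor
        · rintro (h | h)
          · left; rw [h]
          · right; rw [h]; exact ⟨rfl, Or.inr rfl⟩
        · rintro (h | h)
          · left; apply Fin.ext; simp only; omega
          · right; apply Fin.ext; simp only; omega
      · rw [h1, hstep (n - k) (by omega), mem_singleton_iff]
        have h2 : v (n - k + 1) = σ ⟨k - 1, by omega⟩ := by
          rw [hσ, hg]
          simp only
          rw [if_neg (by omega)]
          congr 1
          omega
        rw [h2, σ.injective.eq_iff]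
        constructor
        · intro h
          rw [h]
          left
          simp only
          omega
        · intro h
          apply Fin.ext
          simp only
          omega
  apply cond_of_slow hn (supp_mono _) hw
  rw [iter_relabel, image_singleton]
  intro h
  apply hj
  have h2 : σ ⟨0, by omega⟩ = j := by rw [hσ, hg, ← hv0]; simp
  rw [h2] at h
  rw [← Set.image_preimage_eq ((supp A)^[(n - 1) ^ 2] {j}) σ.surjective, h, image_univ,
    σ.surjective.range_eq]

/-- **Full answer to Q1** (for all orders `m ≥ 2`). A nonnegative tensor of order `m` and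
dimension `n ≥ 2` is primitive with primitive degree `(n - 1)^2 + 1` if and only if some
simultaneous relabelling of its indices satisfies the explicit condition `Extremal`. -/
theorem result (m n : ℕ) (hm : 2 ≤ m) (hn : 2 ≤ n) (A : Tensor m n) (hA : ∀ i f, 0 ≤ A i f) :
    (IsPrimitive A ∧ degree A = (n - 1) ^ 2 + 1) ↔
      ∃ σ : Equiv.Perm (Fin n), Extremal (relabel σ A) := by
  have hN : 1 ≤ (n - 1) ^ 2 := Nat.one_le_iff_ne_zero.2 (pow_ne_zero _ (by omega))
  constructor
  · rintro ⟨⟨r, hr⟩, hd⟩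
    have h1 : degree A ∈ {r | 1 ≤ r ∧ Spreads A r} := Nat.sInf_mem ⟨r, hr⟩
    rw [hd] at h1
    have h2 := (spreads_iff hm A hA _).1 h1.2
    have h3 : ¬ Spreads A ((n - 1) ^ 2) := by
      intro h
      have : degree A ≤ (n - 1) ^ 2 := Nat.sInf_le ⟨hN, h⟩
      omega
    rw [spreads_iff hm A hA] at h3
    push Not at h3
    obtain ⟨j, hj⟩ := h3
    obtain ⟨σ, hσ⟩ := exists_relabel hm hn A h2 hj
    exact ⟨σ, (extremal_cond hm _).2 hσ⟩
  · rintro ⟨σ, hσ⟩
    rw [extremal_cond hm] at hσ
    have hall := full_all hn (supp_mono (relabel σ A)) hσ.w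
    have hnot := not_full_of_cond hn (supp_mono (relabel σ A)) hσ
    have hall' : ∀ j, (supp A)^[(n - 1) ^ 2 + 1] {j} = univ := by
      intro j
      have h := hall (σ.symm j)
      rw [iter_relabel, image_singleton, Equiv.apply_symm_apply] at h
      rw [← Set.image_preimage_eq ((supp A)^[(n - 1) ^ 2 + 1] {j}) σ.surjective, h, image_univ,
        σ.surjective.range_eq]
    have hnot' : (supp A)^[(n - 1) ^ 2] {σ ⟨0, by omega⟩} ≠ univ := by
      intro h
      apply hnot
      rw [iter_relabel, image_singleton, h, preimage_univ]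
    have hs : Spreads A ((n - 1) ^ 2 + 1) := (spreads_iff hm A hA _).2 hall'
    have hprim : IsPrimitive A := ⟨_, by omega, hs⟩
    refine ⟨hprim, ?_⟩
    have hD : Dyn (supp A) := ⟨hn, supp_mono A, supp_empty hm A, fun j => ⟨_, hall' j⟩⟩
    apply le_antisymm
    · exact Nat.sInf_le ⟨by omega, hs⟩
    · by_contra hlt
      have h1 : degree A ∈ {r | 1 ≤ r ∧ Spreads A r} := Nat.sInf_mem hprim
      have h2 := (spreads_iff hm A hA _).1 h1.2 (σ ⟨0, by omega⟩)
      exact hnot' (hD.persist (by omega) h2)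

end Pool.Agent.Results.MP_9d720b_co.MaximalDegree
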